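import Pool.Agent.Lib.FBC.Main
import Pool.Agent.Lib.THU.CV.All

namespace Pool.Agent.Results.MP_288210_al.Full

open Pool.Agent.Lib.FBC.RH (RelHyp WordHyp Hyp3)

/-- every finitely generated subgroup is the intersection of the finite-index subgroups that
contain it -/
def LERF (G : Type) [Group G] : Prop :=
  ∀ K : Subgroup G, K.FG → K = sInf {L : Subgroup G | L.FiniteIndex ∧ K ≤ L}

/-- A free-by-cyclic group that is LERF, relatively hyperbolic and not hyperbolic is the
fundamental group of a hyperbolic 3-manifold. -/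
theorem result (G : Type) [Group G] (n : ℕ) (φ : MulAut (FreeGroup (Fin n)))
    (e : G ≃* FreeGroup (Fin n) ⋊[zpowersHom (MulAut (FreeGroup (Fin n))) φ] Multiplicative ℤ)
    (h1 : LERF G) (h2 : RelHyp G) (h3 : ¬WordHyp G) : Hyp3 G :=
  Pool.Agent.Lib.FBC.RH.full_of Pool.Agent.Lib.FBC.main_holds Pool.Agent.Lib.THU.CV.thu_holds
    G n φ e h1 h2 h3

end Pool.Agent.Results.MP_288210_al.Full
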