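import Pool.Agent.Lib.FBC.Main
import Pool.Agent.Lib.FBC.RH.NoFlat

namespace Pool.Agent.Results.MP_288210_al.HypNotLERF

open Pool.Agent.Lib.FBC Pool.Agent.Lib.FBC.RIB Pool.Agent.Lib.FBC.RIB.Final SemidirectProduct
open Pool.Agent.Lib.FBC.RH (WordHyp)

/-- every finitely generated subgroup is the intersection of the finite-index subgroups that
contain it -/
def LERF (G : Type) [Group G] : Prop :=
  ∀ K : Subgroup G, K.FG → K = sInf {L : Subgroup G | L.FiniteIndex ∧ K ≤ L}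

/-- No word-hyperbolic free-by-cyclic group with nontrivial fibre is LERF. -/
theorem result (G : Type) [Group G] (n : ℕ) (hn : 0 < n) (φ : MulAut (FreeGroup (Fin n)))
    (e : G ≃* FreeGroup (Fin n) ⋊[zpowersHom (MulAut (FreeGroup (Fin n))) φ] Multiplicative ℤ)
    (h : WordHyp G) : ¬LERF G := fun hL => by
  have hL' : Pool.Agent.Lib.MP_288210_al.LERF G := hL
  obtain ⟨x, x1, k, k0, hc⟩ : ∃ x, x ≠ 1 ∧ ∃ k : ℕ, 0 < k ∧ IsConj ((φ ^ k) x) x := by
    rcases final_of main_holds stROOT n φ (hL'.of_injective e.symm.toMonoidHom e.symm.injective)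
      with ⟨k, w, k0, hw⟩ | ⟨ψ, b, c, u, sw, hu, -, hp⟩
    · exact ⟨.of ⟨0, hn⟩, FreeGroup.of_ne_one _, k, k0, (isConj_iff.2 ⟨w, (hw _).symm⟩).symm⟩
    · obtain ⟨j, -⟩ := Finset.exists_ne_zero_of_sum_ne_zero
        ((sw.2.1 ⟨0, hn⟩).trans_ne two_ne_zero)
      exact ⟨u j, (hu j).2, (hp _ (hu j).2).2 ⟨j, 1, by rw [zpow_one]⟩⟩
  obtain ⟨a, ha⟩ := isConj_iff.1 hc
  refine RH.not_wordHyp ((dd φ).comp e.toMonoidHom) (x := e.symm (inl x))
    (z := e.symm (inl a * tt φ k)) (Commute.map (Commute.symm ?_) e.symm) (by simp) (fun hf => x1 ?_)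
    (by simpa [tt] using k0.ne') h
  · rw [Commute, SemiconjBy, ← mul_inv_eq_iff_eq_mul, mul_inv_rev, mul_assoc (inl a),
      mul_assoc (inl a), ← mul_assoc _ (tt φ k)⁻¹, conj_tt, ← map_inv, ← map_mul, ← map_mul,
      ← mul_assoc, ha]
  · obtain ⟨m, m0, hm⟩ := isOfFinOrder_iff_pow_eq_one.1 hf
    rw [← map_pow, ← map_pow, map_eq_one_iff _ e.symm.injective,
      map_eq_one_iff _ inl_injective] at hm
    exact (pow_eq_one_iff_left m0.ne').1 hm

end Pool.Agent.Results.MP_288210_al.HypNotLERF
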